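import Pool.Agent.Q115.DF.Asm

/-!
# MP_4006b4_co: critical graphs for two-part defective colouring, all `d1 ≥ 2`

For all `d1 ≥ 2` and `d2 ≥ d1 + 2` every `(Δ_{d1}, Δ_{d2})`-critical graph `G` satisfies
`e(G) ≥ (2 - α) n(G) + 1/(d2+1)` with `α = (d2+2)/((d1+2)(d2+1))`.
-/

namespace Pool.Agent.Results.MP_4006b4_co.NoSparseCriticalFromTwo

/-- `G` has a `(Δ_{d1}, Δ_{d2})`-colouring: a partition `V1 ∪ V2` of the vertex set such that every vertex of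
`V1` has at most `d1` neighbours in `V1` and every vertex of `V2` has at most `d2` neighbours in `V2`
(`f v = true` means `v ∈ V1`). -/
def DefCol {V : Type} (d1 d2 : ℕ) (G : SimpleGraph V) : Prop :=
  ∃ f : V → Bool, (∀ v, f v = true → {w | G.Adj v w ∧ f w = true}.ncard ≤ d1) ∧
    (∀ v, f v = false → {w | G.Adj v w ∧ f w = false}.ncard ≤ d2)

/-- `G` is `(Δ_{d1}, Δ_{d2})`-critical: it has no such colouring, but every proper subgraph has one. -/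
def Critical {V : Type} (d1 d2 : ℕ) (G : SimpleGraph V) : Prop :=
  ¬ DefCol d1 d2 G ∧ ∀ H : G.Subgraph, H ≠ ⊤ → DefCol d1 d2 H.coe

/-- the number `α = (d2+2)/((d1+2)(d2+1))` -/
def alpha (d1 d2 : ℕ) : ℚ := ((d2 : ℚ) + 2) / (((d1 : ℚ) + 2) * ((d2 : ℚ) + 1))

/-- the number `β = 1/(d2+1)` -/
def beta (d2 : ℕ) : ℚ := 1 / ((d2 : ℚ) + 1)

/-- the potential `ρ(G) = (2-α) n(G) - e(G)` -/
noncomputable def rho {V : Type} (d1 d2 : ℕ) (G : SimpleGraph V) : ℚ :=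
  (2 - alpha d1 d2) * (Nat.card V : ℚ) - (G.edgeSet.ncard : ℚ)

/-- For `d1 ≥ 2` and `d2 ≥ d1 + 2` no `(Δ_{d1}, Δ_{d2})`-critical graph `G` has `ρ(G) > -β`. -/
theorem result (d1 d2 : ℕ) (h1 : 2 ≤ d1) (h2 : d1 + 2 ≤ d2) (V : Type) [Finite V] (G : SimpleGraph V)
    (hG : Critical d1 d2 G) : rho d1 d2 G ≤ - beta d2 := by
  have h := Pool.Agent.Q115.DF.zG d1 d2 h1 h2 V G hG
  unfold rho alpha beta
  linarith

end Pool.Agent.Results.MP_4006b4_co.NoSparseCriticalFromTwo
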